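import Pool.Agent.V11201.SH.E

/-! Merging of Collatz trajectories before the first `1`, with the same number of odd terms. -/

set_option autoImplicit false

namespace Pool.Agent.V8H28.LM

open Finset Filter Topology
open Pool.Agent.V11201.SH
open Pool.Agent.H499R2.CO
open Pool.Agent.H499R2.ND (Tn)
open Pool.Agent.H499R2.LT (odn)
open Pool.Agent.H499R2.HL

/-- the number of the odd terms among the first `k` terms of the trajectory -/
def odds : ℕ → ℕ → ℕ
  | 0, _ => 0
  | k + 1, n => n % 2 + odds k (Cn n)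

theorem odds_add : ∀ (a b n : ℕ), odds (a + b) n = odds a n + odds b (Cn^[a] n) := by
  intro a
  induction a with
  | zero => intro b n; simp [odds]
  | succ a ih =>
    intro b n
    rw [show a + 1 + b = (a + b) + 1 by ring]
    simp only [odds]
    rw [ih, Function.iterate_succ_apply]
    ring

/-- the trajectories of `m` and `n` meet at one and the same time, after the same number of odd terms,
and before this time neither of them has reached `1` -/
def Merge (m n : ℕ) : Prop :=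
  ∃ k, Cn^[k] m = Cn^[k] n ∧ odds k m = odds k n ∧ ∀ i < k, Cn^[i] m ≠ 1 ∧ Cn^[i] n ≠ 1

theorem C_run : ∀ (k n : ℕ), 1 ≤ n → (∀ i < k, Tn^[i] n ≠ 1) →
    Cn^[k + odn k n] n = Tn^[k] n ∧ odds (k + odn k n) n = odn k n ∧
      ∀ i < k + odn k n, Cn^[i] n ≠ 1 := by
  intro k
  induction k with
  | zero =>
    intro n hn h
    have e : odn 0 n = 0 := by simp [odn]
    rw [e]
    exact ⟨rfl, rfl, fun i hi => by omega⟩
  | succ k ih =>
    intro n hn h
    have hn1 : n ≠ 1 := h 0 (by omega)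
    have h' : ∀ i < k, Tn^[i] (Tn n) ≠ 1 := fun i hi => by
      have := h (i + 1) (by omega)
      rwa [Function.iterate_succ_apply] at this
    obtain ⟨h1, h2, h3⟩ := ih (Tn n) (Tn_pos hn) h'
    rw [odn_succ]
    rcases Nat.mod_two_eq_zero_or_one n with hp | hp
    · have hC : Cn n = Tn n := by unfold Cn Tn; rw [if_pos hp, if_pos hp]
      rw [hp, show k + 1 + (0 + odn k (Tn n)) = (k + odn k (Tn n)) + 1 by ring]
      refine ⟨by rw [Function.iterate_succ_apply, Function.iterate_succ_apply, hC]; exact h1, ?_, ?_⟩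
      · simp only [odds]; rw [hC, h2, hp]
      · intro i hi
        rcases i with _ | i
        · exact hn1
        · rw [Function.iterate_succ_apply, hC]
          exact h3 i (by omega)
    · have e1 : Cn n = 3 * n + 1 := by unfold Cn; rw [if_neg (by omega)]
      have hC : Cn (Cn n) = Tn n := by
        rw [e1]
        unfold Cn Tn
        rw [if_pos (by omega), if_neg (by omega)]
      rw [hp, show k + 1 + (1 + odn k (Tn n)) = (k + odn k (Tn n)) + 2 by ring]
      refine ⟨by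
        rw [Function.iterate_succ_apply, Function.iterate_succ_apply, hC, Function.iterate_succ_apply]
        exact h1, ?_, ?_⟩
      · simp only [odds]; rw [hC, h2, hp, e1]; omega
      · intro i hi
        rcases i with _ | _ | i
        · exact hn1
        · rw [zero_add, Function.iterate_one, e1]
          omega
        · rw [Function.iterate_succ_apply, Function.iterate_succ_apply, hC]
          exact h3 i (by omega)

theorem Tn_ge (n : ℕ) : n ≤ 2 * Tn n := by
  unfold Tn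
  split_ifs with h <;> omega

theorem Tn_iter_ge : ∀ (k n : ℕ), n ≤ 2 ^ k * Tn^[k] n := by
  intro k
  induction k with
  | zero => intro n; simp
  | succ k ih =>
    intro n
    rw [Function.iterate_succ_apply, pow_succ]
    have h1 := ih (Tn n)
    have h2 := Tn_ge n
    nlinarith

theorem Merge_Mg {N n j : ℕ} (hn : N < n * n) (h : Mg 1 N (n : ℤ) ((n : ℤ) + 1 * (j : ℤ))) :
    Merge (n + j) n := by
  obtain ⟨t, ht, h1, h2⟩ := h
  have e : (n : ℤ) + 1 * (j : ℤ) = ((n + j : ℕ) : ℤ) := by push_cast; ring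
  rw [e] at h1 h2
  rw [Tn_iter_cast, Tn_iter_cast] at h1
  rw [od_odn, od_odn] at h2
  have h3 : 2 ^ t ≤ n := by
    have h4 : (2 : ℕ) ^ t * 2 ^ t = 4 ^ t := by rw [← mul_pow]; norm_num
    by_contra hcon
    have h5 : n < 2 ^ t := by omega
    have : n * n ≤ 2 ^ t * 2 ^ t := Nat.mul_le_mul h5.le h5.le
    omega
  have hn1 : 1 ≤ n := by
    rcases Nat.eq_zero_or_pos n with rfl | h
    · omega
    · exact h
  have hne : ∀ m, n ≤ m → ∀ i < t, Tn^[i] m ≠ 1 := by
    intro m hm i hi hcon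
    have h4 := Tn_iter_ge i m
    rw [hcon, mul_one] at h4
    have h5 : 2 ^ i < 2 ^ t := Nat.pow_lt_pow_right (by norm_num) hi
    omega
  obtain ⟨a1, a2, a3⟩ := C_run t n hn1 (hne n le_rfl)
  obtain ⟨b1, b2, b3⟩ := C_run t (n + j) (by omega) (hne (n + j) (by omega))
  have h1' : Tn^[t] n = Tn^[t] (n + j) := by exact_mod_cast h1
  refine ⟨t + odn t n, ?_, ?_, fun i hi => ⟨?_, a3 i hi⟩⟩
  · rw [a1, h2, b1, h1']
  · rw [a2, h2, b2]
  · rw [h2] at hi
    exact b3 i hi

theorem merge_rate : ∃ C : ℝ, 0 < C ∧ Rate (fun n j => ¬ Merge (n + j) n) C := by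
  classical
  obtain ⟨C, hC, h⟩ := Mg_pairs
  refine ⟨C + 1, by positivity, fun N hN j hj => ?_⟩
  have h1 := h N hN 1 (by norm_num) (j : ℤ)
  rw [← ncard_filter] at h1
  have h2 := split_small (N := N) (Q := fun n => ¬ Merge (n + j) n)
    (P := fun n => ¬ Mg 1 N ((n : ℕ) : ℤ) ((n : ℤ) + 1 * (j : ℤ))) (fun n hn hq hM => hq (Merge_Mg hn hM))
  have h3 := sqrt_small hN
  have hlog : 0 ≤ Real.log (1 + (j : ℝ)) := Real.log_nonneg (by
    have : (0 : ℝ) ≤ j := by positivity
    linarith)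
  have hlam := lam_pos hN
  have h4 : √ (lam N) ≤ √ ((1 + Real.log (1 + (j : ℝ))) * lam N) := by
    apply Real.sqrt_le_sqrt
    nlinarith
  have h5 : √ (lam N) * (N : ℝ) ≤ √ ((1 + Real.log (1 + (j : ℝ))) * lam N) * N :=
    mul_le_mul_of_nonneg_right h4 (by positivity)
  have e1 : |((j : ℤ) : ℝ)| = (j : ℝ) := by
    rw [Int.cast_natCast]
    exact abs_of_nonneg (by positivity)
  rw [e1] at h1
  have h6 : ({n : ℕ | 1 ≤ n ∧ n ≤ N ∧ ¬ Mg 1 N ((n : ℕ) : ℤ) ((n : ℤ) + 1 * (j : ℤ))}.ncard : ℝ) ≤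
      C * √ ((1 + Real.log (1 + (j : ℝ))) * lam N) * N := h1
  calc ({n : ℕ | 1 ≤ n ∧ n ≤ N ∧ ¬ Merge (n + j) n}.ncard : ℝ)
      ≤ C * √ ((1 + Real.log (1 + (j : ℝ))) * lam N) * N + √ ((1 + Real.log (1 + (j : ℝ))) * lam N) * N := by
        linarith
    _ = (C + 1) * √ ((1 + Real.log (1 + (j : ℝ))) * lam N) * N := by ring

theorem merge_window {ε : ℝ} (hε : 0 < ε) : ∃ θ : ℝ, 0 < θ ∧ ∃ N0 : ℕ, ∀ N ≥ N0, ∀ j : ℕ,
    (j : ℝ) ≤ (N : ℝ) ^ θ → ({n : ℕ | 1 ≤ n ∧ n ≤ N ∧ ¬ Merge (n + j) n}.ncard : ℝ) ≤ ε * N := by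
  classical
  obtain ⟨θ, hθ, N0, h⟩ := Mg_window (ε := ε / 2) (by positivity)
  obtain ⟨N1, hN1⟩ := exists_nat_ge ((2 / ε) ^ 2)
  refine ⟨θ, hθ, max N0 (N1 + 1), fun N hN j hj => ?_⟩
  have hN0 : N0 ≤ N := (le_max_left _ _).trans hN
  have hNN1 : N1 + 1 ≤ N := (le_max_right _ _).trans hN
  have h1 := h N hN0 1 (by norm_num) (j : ℤ) (by
    rw [Int.cast_natCast, abs_of_nonneg (by positivity)]; exact hj)
  rw [← ncard_filter] at h1
  have h2 := split_small (N := N) (Q := fun n => ¬ Merge (n + j) n)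
    (P := fun n => ¬ Mg 1 N ((n : ℕ) : ℤ) ((n : ℤ) + 1 * (j : ℤ))) (fun n hn hq hM => hq (Merge_Mg hn hM))
  have hNpos : (0 : ℝ) < N := by
    have : 0 < N := by omega
    exact_mod_cast this
  have h3 : (Nat.sqrt N : ℝ) ≤ ε / 2 * N := by
    have a1 : (Nat.sqrt N : ℝ) ≤ √ (N : ℝ) := Real.nat_sqrt_le_real_sqrt
    have a2 : 2 / ε ≤ √ (N : ℝ) := by
      rw [Real.le_sqrt (by positivity) (by positivity)]
      refine hN1.trans ?_
      exact_mod_cast (by omega : N1 ≤ N)
    have a3 : √ (N : ℝ) * √ (N : ℝ) = N := Real.mul_self_sqrt hNpos.le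
    have a4 : 0 < √ (N : ℝ) := Real.sqrt_pos.2 hNpos
    have a5 : 1 ≤ ε / 2 * √ (N : ℝ) := by
      rw [div_le_iff₀ hε] at a2
      linarith
    calc (Nat.sqrt N : ℝ) ≤ √ (N : ℝ) := a1
      _ = 1 * √ (N : ℝ) := by ring
      _ ≤ (ε / 2 * √ (N : ℝ)) * √ (N : ℝ) := mul_le_mul_of_nonneg_right a5 a4.le
      _ = ε / 2 * N := by rw [mul_assoc, a3]
  linarith

end Pool.Agent.V8H28.LM
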