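import Mathlib

/-! Averages over short intervals and functions which are almost invariant under small shifts. -/

set_option autoImplicit false

namespace Pool.Agent.V8H28.LM

open Finset Filter Topology

/-- the mean of `f` over the interval `(n, n + H]` -/
noncomputable def mean (f : ℕ → ℂ) (H n : ℕ) : ℂ := (∑ j ∈ Icc 1 H, f (n + j)) / H

theorem norm_mean_le {f : ℕ → ℂ} (hf : ∀ n, ‖f n‖ ≤ 1) (H n : ℕ) : ‖mean f H n‖ ≤ 1 := by
  unfold mean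
  rcases Nat.eq_zero_or_pos H with rfl | hH
  · simp
  have hH' : (0 : ℝ) < H := by exact_mod_cast hH
  rw [norm_div, Complex.norm_natCast, div_le_one hH']
  refine (norm_sum_le _ _).trans ((sum_le_sum fun j _ => hf (n + j)).trans ?_)
  simp

theorem shift_one (g : ℕ → ℂ) (j N : ℕ) :
    ∑ n ∈ Icc 1 N, g (n + j) - ∑ n ∈ Icc 1 N, g (n + (j + 1)) = g (1 + j) - g (N + 1 + j) := by
  induction N with
  | zero => simp
  | succ N ih =>
    rw [sum_Icc_succ_top (by omega), sum_Icc_succ_top (by omega), add_sub_add_comm, ih,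
      show N + 1 + (j + 1) = N + 1 + 1 + j by ring]
    ring

/-- shifting the range of a sum -/
theorem shift_le {g : ℕ → ℂ} (hg : ∀ n, ‖g n‖ ≤ 1) (N : ℕ) : ∀ j : ℕ,
    ‖∑ n ∈ Icc 1 N, g n - ∑ n ∈ Icc 1 N, g (n + j)‖ ≤ 2 * j := by
  intro j
  induction j with
  | zero => simp
  | succ j ih =>
    have h3 : ‖g (1 + j) - g (N + 1 + j)‖ ≤ 2 := by
      refine (norm_sub_le _ _).trans ?_
      have := hg (1 + j)
      have := hg (N + 1 + j)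
      linarith
    calc ‖∑ n ∈ Icc 1 N, g n - ∑ n ∈ Icc 1 N, g (n + (j + 1))‖
        = ‖(∑ n ∈ Icc 1 N, g n - ∑ n ∈ Icc 1 N, g (n + j)) +
            (∑ n ∈ Icc 1 N, g (n + j) - ∑ n ∈ Icc 1 N, g (n + (j + 1)))‖ := by congr 1; ring
      _ ≤ 2 * j + 2 := by
        refine (norm_add_le _ _).trans ?_
        rw [shift_one]
        linarith
      _ = 2 * ((j + 1 : ℕ) : ℝ) := by push_cast; ring

theorem fin_le (P : ℕ → Prop) (N : ℕ) : {n : ℕ | 1 ≤ n ∧ n ≤ N ∧ P n}.Finite :=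
  (Set.finite_Icc 1 N).subset fun n hn => ⟨hn.1, hn.2.1⟩

theorem ncard_eq (P : ℕ → Prop) [DecidablePred P] (N : ℕ) :
    {n : ℕ | 1 ≤ n ∧ n ≤ N ∧ P n}.ncard = #{n ∈ Icc 1 N | P n} := by
  rw [← Set.ncard_coe_finset]
  congr 1
  ext n
  simp [and_assoc]

/-- **Transfer.** If `G (n + j) = G n` unless `R n j`, then sums of `f G` are sums of `mean f H · G`. -/
theorem transfer {f G : ℕ → ℂ} (hf : ∀ n, ‖f n‖ ≤ 1) (hG : ∀ n, ‖G n‖ ≤ 1) {R : ℕ → ℕ → Prop}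
    (hR : ∀ n j, 1 ≤ n → 1 ≤ j → ¬ R n j → G (n + j) = G n) {N H : ℕ} (hH : 1 ≤ H) {κ : ℝ}
    (hκ : ∀ j, 1 ≤ j → j ≤ H → ({n : ℕ | 1 ≤ n ∧ n ≤ N ∧ R n j}.ncard : ℝ) ≤ κ * N) :
    ‖∑ n ∈ Icc 1 N, f n * G n - ∑ n ∈ Icc 1 N, mean f H n * G n‖ ≤ 2 * κ * N + 2 * H := by
  classical
  have hH' : (0 : ℝ) < H := by exact_mod_cast hH
  have hHc : (H : ℂ) ≠ 0 := by exact_mod_cast (by omega : H ≠ 0)
  have hfG : ∀ n, ‖f n * G n‖ ≤ 1 := fun n => by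
    rw [norm_mul]
    exact mul_le_one₀ (hf n) (norm_nonneg _) (hG n)
  have key : ∀ j ∈ Icc 1 H, ‖∑ n ∈ Icc 1 N, f n * G n - ∑ n ∈ Icc 1 N, f (n + j) * G n‖ ≤
      2 * κ * N + 2 * H := by
    intro j hj
    rw [mem_Icc] at hj
    have h1 := shift_le hfG N j
    have h2 : ‖∑ n ∈ Icc 1 N, f (n + j) * G (n + j) - ∑ n ∈ Icc 1 N, f (n + j) * G n‖ ≤ 2 * κ * N := by
      rw [← sum_sub_distrib]
      refine (norm_sum_le _ _).trans ?_
      have h3 : ∀ n ∈ Icc 1 N, ‖f (n + j) * G (n + j) - f (n + j) * G n‖ ≤ if R n j then 2 else 0 := by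
        intro n hn
        rw [mem_Icc] at hn
        split_ifs with hr
        · rw [← mul_sub, norm_mul]
          have a1 := hf (n + j)
          have a2 : ‖G (n + j) - G n‖ ≤ 2 := by
            refine (norm_sub_le _ _).trans ?_
            have := hG (n + j)
            have := hG n
            linarith
          calc ‖f (n + j)‖ * ‖G (n + j) - G n‖ ≤ 1 * 2 :=
                mul_le_mul a1 a2 (norm_nonneg _) zero_le_one
            _ = 2 := by norm_num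
        · rw [hR n j hn.1 hj.1 hr, sub_self, norm_zero]
      refine (sum_le_sum h3).trans ?_
      rw [← sum_filter, sum_const, nsmul_eq_mul]
      have h4 := hκ j hj.1 hj.2
      rw [ncard_eq] at h4
      linarith
    calc ‖∑ n ∈ Icc 1 N, f n * G n - ∑ n ∈ Icc 1 N, f (n + j) * G n‖
        = ‖(∑ n ∈ Icc 1 N, f n * G n - ∑ n ∈ Icc 1 N, f (n + j) * G (n + j)) +
          (∑ n ∈ Icc 1 N, f (n + j) * G (n + j) - ∑ n ∈ Icc 1 N, f (n + j) * G n)‖ := by congr 1; ring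
      _ ≤ 2 * j + 2 * κ * N := (norm_add_le _ _).trans (add_le_add h1 h2)
      _ ≤ 2 * κ * N + 2 * H := by
        have : (j : ℝ) ≤ H := by exact_mod_cast hj.2
        linarith
  have e1 : ∑ n ∈ Icc 1 N, mean f H n * G n = (∑ j ∈ Icc 1 H, ∑ n ∈ Icc 1 N, f (n + j) * G n) / H := by
    rw [sum_comm, sum_div]
    refine sum_congr rfl fun n _ => ?_
    unfold mean
    rw [← sum_mul]
    ring
  have e2 : ∑ n ∈ Icc 1 N, f n * G n - ∑ n ∈ Icc 1 N, mean f H n * G n =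
      (∑ j ∈ Icc 1 H, (∑ n ∈ Icc 1 N, f n * G n - ∑ n ∈ Icc 1 N, f (n + j) * G n)) / H := by
    rw [e1, sum_sub_distrib, sum_const, Nat.card_Icc, Nat.add_sub_cancel, nsmul_eq_mul]
    field_simp
  rw [e2, norm_div, Complex.norm_natCast, div_le_iff₀ hH']
  refine (norm_sum_le _ _).trans ((sum_le_sum key).trans ?_)
  rw [sum_const, Nat.card_Icc, Nat.add_sub_cancel, nsmul_eq_mul]
  linarith

/-- `f` has the local mean `c`: for every `ε` there is `H` such that in the mean over `n ≤ N` the mean of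
`f` over `(n, n + H]` differs from `c` by at most `ε`, for all large `N` -/
def LocalMean (f : ℕ → ℂ) (c : ℂ) : Prop :=
  ∀ ε : ℝ, 0 < ε → ∃ H : ℕ, 1 ≤ H ∧ ∀ᶠ N : ℕ in atTop, ∑ n ∈ Icc 1 N, ‖mean f H n - c‖ ≤ ε * N

/-- `f` has the mean `c` over all long intervals, uniformly -/
def UniformMean (f : ℕ → ℂ) (c : ℂ) : Prop :=
  ∀ ε : ℝ, 0 < ε → ∃ H : ℕ, 1 ≤ H ∧ ∀ n, ‖mean f H n - c‖ ≤ ε

theorem UniformMean.localMean {f : ℕ → ℂ} {c : ℂ} (h : UniformMean f c) : LocalMean f c := by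
  intro ε hε
  obtain ⟨H, hH, h1⟩ := h ε hε
  refine ⟨H, hH, Eventually.of_forall fun N => ?_⟩
  refine (sum_le_sum fun n _ => h1 n).trans ?_
  rw [sum_const, Nat.card_Icc, Nat.add_sub_cancel, nsmul_eq_mul, mul_comm]

/-- the mean of the means -/
theorem sum_mean_sub {f : ℕ → ℂ} (H N : ℕ) (hH : 1 ≤ H) :
    ∑ n ∈ Icc 1 N, ‖mean f H n‖ ≤ ∑ n ∈ Icc 1 (N + H), ‖f n‖ := by
  have hH' : (0 : ℝ) < H := by exact_mod_cast hH
  have h1 : ∀ n ∈ Icc 1 N, ‖mean f H n‖ ≤ (∑ j ∈ Icc 1 H, ‖f (n + j)‖) / H := by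
    intro n _
    unfold mean
    rw [norm_div, Complex.norm_natCast]
    exact div_le_div_of_nonneg_right (norm_sum_le _ _) hH'.le
  refine (sum_le_sum h1).trans ?_
  rw [← sum_div, sum_comm, div_le_iff₀ hH']
  have h2 : ∀ j ∈ Icc 1 H, ∑ n ∈ Icc 1 N, ‖f (n + j)‖ ≤ ∑ n ∈ Icc 1 (N + H), ‖f n‖ := by
    intro j hj
    rw [mem_Icc] at hj
    have e : ∑ n ∈ Icc 1 N, ‖f (n + j)‖ = ∑ m ∈ (Icc 1 N).map (addRightEmbedding j), ‖f m‖ := by
      rw [sum_map]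
      rfl
    rw [e]
    apply sum_le_sum_of_subset_of_nonneg
    · intro m hm
      rw [Finset.mem_map] at hm
      obtain ⟨n, hn, rfl⟩ := hm
      rw [mem_Icc] at hn
      rw [mem_Icc, addRightEmbedding_apply]
      omega
    · intro _ _ _
      exact norm_nonneg _
  refine (sum_le_sum h2).trans ?_
  rw [sum_const, Nat.card_Icc, Nat.add_sub_cancel, nsmul_eq_mul, mul_comm]

/-- closure under limits in mean -/
theorem LocalMean_lim {f : ℕ → ℂ} {c : ℂ} (h : ∀ ε : ℝ, 0 < ε → ∃ (g : ℕ → ℂ) (b : ℂ), LocalMean g b ∧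
    ‖b - c‖ ≤ ε ∧ ∀ᶠ N : ℕ in atTop, ∑ n ∈ Icc 1 N, ‖f n - g n‖ ≤ ε * N) : LocalMean f c := by
  intro ε hε
  obtain ⟨g, b, h1, h2, h3⟩ := h (ε / 4) (by positivity)
  obtain ⟨H, hH, h4⟩ := h1 (ε / 4) (by positivity)
  refine ⟨H, hH, ?_⟩
  have h5 : ∀ᶠ N : ℕ in atTop, ∑ n ∈ Icc 1 (N + H), ‖f n - g n‖ ≤ ε / 4 * ((N + H : ℕ) : ℝ) :=
    (tendsto_add_atTop_nat H).eventually h3
  filter_upwards [h4, h5, eventually_ge_atTop H] with N a1 a2 a3
  have hHN : (H : ℝ) ≤ N := by exact_mod_cast a3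
  have h6 := sum_mean_sub (f := fun n => f n - g n) H N hH
  have h7 : ∀ n ∈ Icc 1 N, ‖mean f H n - c‖ ≤ ‖mean (fun n => f n - g n) H n‖ + ‖mean g H n - b‖ + ε / 4 := by
    intro n _
    have e : mean f H n - c = mean (fun n => f n - g n) H n + (mean g H n - b) + (b - c) := by
      unfold mean
      rw [sum_sub_distrib]
      ring
    rw [e]
    refine (norm_add_le _ _).trans (add_le_add (norm_add_le _ _) h2)
  refine (sum_le_sum h7).trans ?_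
  rw [sum_add_distrib, sum_add_distrib, sum_const, Nat.card_Icc, Nat.add_sub_cancel, nsmul_eq_mul]
  push_cast at a2
  nlinarith [h6, a1, a2]

/-- **Independence.** -/
theorem indep {f : ℕ → ℂ} {c : ℂ} (hf : ∀ n, ‖f n‖ ≤ 1) (h : LocalMean f c) {R : ℕ → ℕ → Prop}
    (hR : ∀ j : ℕ, 1 ≤ j → ∀ ε : ℝ, 0 < ε → ∀ᶠ N : ℕ in atTop,
      ({n : ℕ | 1 ≤ n ∧ n ≤ N ∧ R n j}.ncard : ℝ) ≤ ε * N) :
    ∀ ε : ℝ, 0 < ε → ∀ᶠ N : ℕ in atTop, ∀ G : ℕ → ℂ, (∀ n, ‖G n‖ ≤ 1) →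
      (∀ n j, 1 ≤ n → 1 ≤ j → ¬ R n j → G (n + j) = G n) →
      ‖∑ n ∈ Icc 1 N, f n * G n - c * ∑ n ∈ Icc 1 N, G n‖ ≤ ε * N := by
  intro ε hε
  obtain ⟨H, hH, h1⟩ := h (ε / 4) (by positivity)
  have h2 : ∀ᶠ N : ℕ in atTop, ∀ j ∈ Icc 1 H,
      ({n : ℕ | 1 ≤ n ∧ n ≤ N ∧ R n j}.ncard : ℝ) ≤ ε / 8 * N := by
    rw [eventually_all_finset]
    intro j hj
    rw [mem_Icc] at hj
    exact hR j hj.1 _ (by positivity)
  obtain ⟨N1, hN1⟩ := exists_nat_ge (2 * H / (ε / 4))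
  filter_upwards [h1, h2, eventually_ge_atTop N1] with N a1 a2 a3 G hG hinv
  have h3 := transfer hf hG hinv (N := N) (H := H) hH (κ := ε / 8) (fun j hj1 hj2 =>
    a2 j (mem_Icc.2 ⟨hj1, hj2⟩))
  have h4 : 2 * (H : ℝ) ≤ ε / 4 * N := by
    have : 2 * H / (ε / 4) ≤ (N : ℝ) := hN1.trans (by exact_mod_cast a3)
    rw [div_le_iff₀ (by positivity)] at this
    linarith
  have h5 : ‖∑ n ∈ Icc 1 N, mean f H n * G n - c * ∑ n ∈ Icc 1 N, G n‖ ≤ ε / 4 * N := by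
    rw [mul_sum, ← sum_sub_distrib]
    refine (norm_sum_le _ _).trans (le_trans (sum_le_sum fun n _ => ?_) a1)
    rw [← sub_mul, norm_mul]
    exact mul_le_of_le_one_right (norm_nonneg _) (hG n)
  calc ‖∑ n ∈ Icc 1 N, f n * G n - c * ∑ n ∈ Icc 1 N, G n‖
      = ‖(∑ n ∈ Icc 1 N, f n * G n - ∑ n ∈ Icc 1 N, mean f H n * G n) +
        (∑ n ∈ Icc 1 N, mean f H n * G n - c * ∑ n ∈ Icc 1 N, G n)‖ := by congr 1; ring
    _ ≤ (2 * (ε / 8) * N + 2 * H) + ε / 4 * N := (norm_add_le _ _).trans (add_le_add h3 h5)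
    _ ≤ ε * N := by nlinarith [(Nat.cast_nonneg N : (0 : ℝ) ≤ N)]

end Pool.Agent.V8H28.LM
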