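import Pool.Agent.V8H28.LM.B
import Pool.Agent.H238R3.UL.Poly

/-! Sequences with local means. -/

set_option autoImplicit false

namespace Pool.Agent.V8H28.LM

open Finset Filter Topology

theorem sum_Icc_range {f : ℕ → ℂ} (H n : ℕ) : ∑ j ∈ Icc 1 H, f (n + j) = ∑ j ∈ range H, f (n + 1 + j) := by
  induction H with
  | zero => simp
  | succ H ih => rw [sum_Icc_succ_top (by omega), sum_range_succ, ih, show n + (H + 1) = n + 1 + H by ring]

theorem sum_blocks (g : ℕ → ℂ) (B : ℕ) : ∀ M : ℕ,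
    ∑ j ∈ range (M * B), g j = ∑ i ∈ range M, ∑ r ∈ range B, g (i * B + r) := by
  intro M
  induction M with
  | zero => simp
  | succ M ih => rw [Nat.succ_mul, sum_range_add, ih, sum_range_succ]

theorem mean_blocks (f : ℕ → ℂ) (H M n : ℕ) (hM : 1 ≤ M) :
    mean f (M * H) n = (∑ i ∈ range M, mean f H (n + i * H)) / M := by
  unfold mean
  rw [sum_Icc_range, sum_blocks, ← sum_div, div_div]
  congr 1
  · refine sum_congr rfl fun i _ => ?_
    rw [sum_Icc_range]
    refine sum_congr rfl fun r _ => ?_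
    congr 1
    ring
  · push_cast; ring

theorem UniformMean.mul {f : ℕ → ℂ} {c : ℂ} {ε : ℝ} {H : ℕ} (h : ∀ n, ‖mean f H n - c‖ ≤ ε) {M : ℕ}
    (hM : 1 ≤ M) (n : ℕ) : ‖mean f (M * H) n - c‖ ≤ ε := by
  have hM' : (0 : ℝ) < M := by exact_mod_cast hM
  have hMc : (M : ℂ) ≠ 0 := by exact_mod_cast (by omega : M ≠ 0)
  have e : mean f (M * H) n - c = (∑ i ∈ range M, (mean f H (n + i * H) - c)) / M := by
    rw [mean_blocks f H M n hM, sum_sub_distrib, sum_const, card_range, nsmul_eq_mul]
    field_simp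
  rw [e, norm_div, Complex.norm_natCast, div_le_iff₀ hM']
  refine (norm_sum_le _ _).trans ((sum_le_sum fun i _ => h (n + i * H)).trans ?_)
  rw [sum_const, card_range, nsmul_eq_mul, mul_comm]

theorem local_mul {f : ℕ → ℂ} {c : ℂ} {ε : ℝ} {H M : ℕ} (hM : 1 ≤ M)
    (h : ∀ᶠ N : ℕ in atTop, ∑ n ∈ Icc 1 N, ‖mean f H n - c‖ ≤ ε * N) (hε : 0 ≤ ε) :
    ∀ᶠ N : ℕ in atTop, ∑ n ∈ Icc 1 N, ‖mean f (M * H) n - c‖ ≤ 2 * ε * N := by
  have hM' : (0 : ℝ) < M := by exact_mod_cast hM
  have hMc : (M : ℂ) ≠ 0 := by exact_mod_cast (by omega : M ≠ 0)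
  filter_upwards [(tendsto_add_atTop_nat (M * H)).eventually h, eventually_ge_atTop (M * H)] with N a1 a2
  have h1 : ∀ n ∈ Icc 1 N, ‖mean f (M * H) n - c‖ ≤ (∑ i ∈ range M, ‖mean f H (n + i * H) - c‖) / M := by
    intro n _
    have e : mean f (M * H) n - c = (∑ i ∈ range M, (mean f H (n + i * H) - c)) / M := by
      rw [mean_blocks f H M n hM, sum_sub_distrib, sum_const, card_range, nsmul_eq_mul]
      field_simp
    rw [e, norm_div, Complex.norm_natCast]
    exact div_le_div_of_nonneg_right (norm_sum_le _ _) hM'.le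
  refine (sum_le_sum h1).trans ?_
  rw [← sum_div, sum_comm, div_le_iff₀ hM']
  have h2 : ∀ i ∈ range M, ∑ n ∈ Icc 1 N, ‖mean f H (n + i * H) - c‖ ≤ 2 * ε * N := by
    intro i hi
    rw [mem_range] at hi
    have hiH : i * H ≤ M * H := Nat.mul_le_mul_right H hi.le
    have e : ∑ n ∈ Icc 1 N, ‖mean f H (n + i * H) - c‖ =
        ∑ m ∈ (Icc 1 N).map (addRightEmbedding (i * H)), ‖mean f H m - c‖ := by
      rw [sum_map]
      rfl
    have h3 : ∑ n ∈ Icc 1 N, ‖mean f H (n + i * H) - c‖ ≤ ∑ n ∈ Icc 1 (N + M * H), ‖mean f H n - c‖ := by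
      rw [e]
      apply sum_le_sum_of_subset_of_nonneg
      · intro m hm
        rw [Finset.mem_map] at hm
        obtain ⟨n, hn, rfl⟩ := hm
        rw [mem_Icc] at hn
        rw [mem_Icc, addRightEmbedding_apply]
        omega
      · intro _ _ _
        exact norm_nonneg _
    have h4 : ((N + M * H : ℕ) : ℝ) ≤ 2 * N := by
      have : N + M * H ≤ 2 * N := by omega
      exact_mod_cast this
    nlinarith [h3, a1]
  refine (sum_le_sum h2).trans ?_
  rw [sum_const, card_range, nsmul_eq_mul, mul_comm]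

/-- sums -/
theorem LocalMean.add {f g : ℕ → ℂ} {b c : ℂ} (hf : LocalMean f b) (hg : LocalMean g c) :
    LocalMean (fun n => f n + g n) (b + c) := by
  intro ε hε
  obtain ⟨H, hH, h1⟩ := hf (ε / 4) (by positivity)
  obtain ⟨K, hK, h2⟩ := hg (ε / 4) (by positivity)
  refine ⟨K * H, Nat.mul_pos hK hH, ?_⟩
  have h3 := local_mul hK h1 (by positivity)
  have h4 := local_mul hH h2 (by positivity)
  rw [mul_comm H K] at h4
  filter_upwards [h3, h4] with N a1 a2
  have h5 : ∀ n ∈ Icc 1 N, ‖mean (fun n => f n + g n) (K * H) n - (b + c)‖ ≤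
      ‖mean f (K * H) n - b‖ + ‖mean g (K * H) n - c‖ := by
    intro n _
    have e : mean (fun n => f n + g n) (K * H) n - (b + c) =
        (mean f (K * H) n - b) + (mean g (K * H) n - c) := by
      unfold mean
      rw [sum_add_distrib]
      ring
    rw [e]
    exact norm_add_le _ _
  refine (sum_le_sum h5).trans ?_
  rw [sum_add_distrib]
  linarith

/-- multiples -/
theorem LocalMean.smul {f : ℕ → ℂ} {c : ℂ} (a : ℂ) (hf : LocalMean f c) :
    LocalMean (fun n => a * f n) (a * c) := by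
  intro ε hε
  obtain ⟨H, hH, h1⟩ := hf (ε / (‖a‖ + 1)) (by positivity)
  refine ⟨H, hH, ?_⟩
  filter_upwards [h1] with N a1
  have h5 : ∀ n ∈ Icc 1 N, ‖mean (fun n => a * f n) H n - a * c‖ ≤ (‖a‖ + 1) * ‖mean f H n - c‖ := by
    intro n _
    have e : mean (fun n => a * f n) H n - a * c = a * (mean f H n - c) := by
      unfold mean
      rw [← mul_sum]
      ring
    rw [e, norm_mul]
    exact mul_le_mul_of_nonneg_right (by linarith) (norm_nonneg _)
  refine (sum_le_sum h5).trans ?_
  rw [← mul_sum]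
  calc (‖a‖ + 1) * ∑ n ∈ Icc 1 N, ‖mean f H n - c‖ ≤ (‖a‖ + 1) * (ε / (‖a‖ + 1) * N) :=
        mul_le_mul_of_nonneg_left a1 (by positivity)
    _ = ε * N := by field_simp

/-- periodic sequences -/
theorem periodic_uniform {f : ℕ → ℂ} {q : ℕ} (hq : 1 ≤ q) (hp : ∀ n, f (n + q) = f n) :
    UniformMean f (mean f q 0) := by
  intro ε hε
  refine ⟨q, hq, fun n => ?_⟩
  have h : mean f q n = mean f q 0 := by
    induction n with
    | zero => rfl
    | succ n ih =>
      rw [← ih]
      unfold mean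
      congr 1
      have h1 := shift_one (fun m => f (n + m)) 0 q
      simp only [add_zero, zero_add] at h1
      have e1 : f (n + (q + 1)) = f (n + 1) := by
        rw [show n + (q + 1) = n + 1 + q by ring, hp]
      rw [e1, sub_self, sub_eq_zero] at h1
      rw [h1]
      refine sum_congr rfl fun j _ => ?_
      congr 1
      ring
  rw [h, sub_self, norm_zero]
  exact hε.le

/-- sequences which are completely multiplicative with respect to the digits in base `b` -/
theorem digit_sum {f : ℕ → ℂ} {b : ℕ} (hf : ∀ n a, a < b → f (b * n + a) = f n * f a) : ∀ (k n : ℕ),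
    ∑ a ∈ range (b ^ k), f (b ^ k * n + a) = f n * (∑ a ∈ range b, f a) ^ k := by
  intro k
  induction k with
  | zero => intro n; simp
  | succ k ih =>
    intro n
    rw [pow_succ, sum_blocks]
    have h1 : ∀ i ∈ range (b ^ k), ∑ r ∈ range b, f (b ^ k * b * n + (i * b + r)) =
        f (b ^ k * n + i) * ∑ r ∈ range b, f r := by
      intro i _
      rw [mul_sum]
      refine sum_congr rfl fun r hr => ?_
      rw [mem_range] at hr
      rw [← hf _ r hr]
      congr 1
      ring
    rw [sum_congr rfl h1, ← sum_mul, ih n, pow_succ, mul_assoc]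

theorem digit_uniform {f : ℕ → ℂ} {b : ℕ} (hb : 2 ≤ b) (h1 : ∀ n, ‖f n‖ ≤ 1)
    (hf : ∀ n a, a < b → f (b * n + a) = f n * f a) (hs : ‖∑ a ∈ range b, f a‖ < b) : UniformMean f 0 := by
  intro ε hε
  have hb' : (0 : ℝ) < b := by exact_mod_cast (by omega : 0 < b)
  set s : ℝ := ‖∑ a ∈ range b, f a‖ / b with hsdef
  have hs0 : 0 ≤ s := by positivity
  have hs1 : s < 1 := (div_lt_one hb').2 hs
  obtain ⟨k, hk⟩ := exists_pow_lt_of_lt_one (show (0 : ℝ) < ε / 2 by positivity) hs1
  obtain ⟨M, hM⟩ := exists_nat_ge (4 / (ε / 2))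
  have hM0 : (0 : ℝ) < M := lt_of_lt_of_le (by positivity) hM
  have hM1 : 1 ≤ M := by exact_mod_cast hM0
  set B := b ^ k with hB
  have hB1 : 1 ≤ B := Nat.one_le_pow _ _ (by omega)
  have hB' : (0 : ℝ) < B := by exact_mod_cast hB1
  refine ⟨M * B, Nat.mul_pos hM1 hB1, fun n => ?_⟩
  rw [sub_zero]
  unfold mean
  rw [norm_div, Complex.norm_natCast]
  push_cast
  rw [div_le_iff₀ (by positivity), sum_Icc_range]
  -- alignment
  set q := (n + 1) / B with hq
  set r := (n + 1) % B with hr
  have hnq : n + 1 = B * q + r := (Nat.div_add_mod _ _).symm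
  have hrB : r < B := Nat.mod_lt _ (by omega)
  have h2 := shift_le (g := fun m => f (B * q + m)) (fun m => h1 _) (M * B) r
  have h3 := shift_le (g := fun m => f (B * q + m)) (fun m => h1 _) (M * B)
  have e1 : ∑ j ∈ range (M * B), f (n + 1 + j) =
      f (B * q + r) + ∑ j ∈ Icc 1 (M * B), f (B * q + (j + r)) - f (B * q + (M * B + r)) := by
    have a1 : ∑ j ∈ Icc 1 (M * B), f (B * q + (j + r)) = ∑ j ∈ range (M * B), f (B * q + r + 1 + j) := by
      rw [← sum_Icc_range (f := f) (M * B) (B * q + r)]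
      refine sum_congr rfl fun j _ => ?_
      congr 1
      ring
    rw [a1, hnq]
    have a2 := sum_range_succ (fun j => f (B * q + r + j)) (M * B)
    have a3 := sum_range_succ' (fun j => f (B * q + r + j)) (M * B)
    rw [a2] at a3
    have a4 : ∑ k ∈ range (M * B), f (B * q + r + (k + 1)) = ∑ j ∈ range (M * B), f (B * q + r + 1 + j) :=
      sum_congr rfl fun j _ => by congr 1; ring
    rw [a4, add_zero] at a3
    rw [show B * q + (M * B + r) = B * q + r + M * B by ring]
    linear_combination a3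
  have e2 : ∑ j ∈ Icc 1 (M * B), f (B * q + j) =
      ∑ j ∈ range (M * B), f (B * q + j) - f (B * q) + f (B * q + M * B) := by
    rw [sum_Icc_range]
    have a2 := sum_range_succ (fun j => f (B * q + j)) (M * B)
    have a3 := sum_range_succ' (fun j => f (B * q + j)) (M * B)
    rw [a2] at a3
    have a4 : ∑ k ∈ range (M * B), f (B * q + (k + 1)) = ∑ j ∈ range (M * B), f (B * q + 1 + j) :=
      sum_congr rfl fun j _ => by congr 1; ring
    rw [a4, add_zero] at a3
    linear_combination -a3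
  have h4 : ‖∑ j ∈ range (M * B), f (B * q + j)‖ ≤ M * (s ^ k * B) := by
    rw [sum_blocks]
    have a1 : ∀ i ∈ range M, ‖∑ r ∈ range B, f (B * q + (i * B + r))‖ ≤ s ^ k * B := by
      intro i _
      have a2 : ∑ r ∈ range B, f (B * q + (i * B + r)) = ∑ r ∈ range B, f (B * (q + i) + r) :=
        sum_congr rfl fun r _ => by congr 1; ring
      rw [a2, hB, digit_sum hf k (q + i), norm_mul, norm_pow]
      have a3 : ‖∑ a ∈ range b, f a‖ = s * b := by rw [hsdef]; field_simp
      rw [a3, mul_pow]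
      push_cast
      exact mul_le_of_le_one_left (by positivity) (h1 _)
    refine (norm_sum_le _ _).trans ((sum_le_sum a1).trans ?_)
    rw [sum_const, card_range, nsmul_eq_mul]
  have h5 : ‖∑ j ∈ range (M * B), f (n + 1 + j)‖ ≤ M * (s ^ k * B) + (2 * r + 4) := by
    have e3 : ∑ j ∈ range (M * B), f (n + 1 + j) = ∑ j ∈ range (M * B), f (B * q + j) -
        (∑ j ∈ Icc 1 (M * B), f (B * q + j) - ∑ j ∈ Icc 1 (M * B), f (B * q + (j + r))) +
        (f (B * q + r) - f (B * q + (M * B + r))) + (f (B * q + M * B) - f (B * q)) := by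
      rw [e1, e2]
      ring
    rw [e3]
    have b1 : ‖f (B * q + r) - f (B * q + (M * B + r))‖ ≤ 2 := by
      refine (norm_sub_le _ _).trans ?_
      have := h1 (B * q + r)
      have := h1 (B * q + (M * B + r))
      linarith
    have b2 : ‖f (B * q + M * B) - f (B * q)‖ ≤ 2 := by
      refine (norm_sub_le _ _).trans ?_
      have := h1 (B * q + M * B)
      have := h1 (B * q)
      linarith
    refine (norm_add_le _ _).trans ?_
    have b3 := (norm_add_le (∑ j ∈ range (M * B), f (B * q + j) -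
        (∑ j ∈ Icc 1 (M * B), f (B * q + j) - ∑ j ∈ Icc 1 (M * B), f (B * q + (j + r))))
        (f (B * q + r) - f (B * q + (M * B + r))))
    have b4 := norm_sub_le (∑ j ∈ range (M * B), f (B * q + j))
        (∑ j ∈ Icc 1 (M * B), f (B * q + j) - ∑ j ∈ Icc 1 (M * B), f (B * q + (j + r)))
    linarith
  refine h5.trans ?_
  have c1 : (r : ℝ) + 1 ≤ B := by exact_mod_cast hrB
  have c2 : 4 ≤ ε / 2 * M := by
    rw [div_le_iff₀ (by positivity)] at hM
    linarith
  have c3 : (M : ℝ) * (s ^ k * B) ≤ M * (ε / 2 * B) := by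
    apply mul_le_mul_of_nonneg_left _ hM0.le
    exact mul_le_mul_of_nonneg_right hk.le hB'.le
  have c4 : (4 : ℝ) * B ≤ ε / 2 * M * B := mul_le_mul_of_nonneg_right c2 hB'.le
  have c5 : 2 * (r : ℝ) + 4 ≤ 4 * B := by
    have : (1 : ℝ) ≤ B := by exact_mod_cast hB1
    linarith
  linarith

end Pool.Agent.V8H28.LM
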