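import Pool.Agent.V8H28.LM.C

/-! Limits in mean, integers without divisors in a thin set, polynomial phases. -/

set_option autoImplicit false

namespace Pool.Agent.V8H28.LM

open Finset Filter Topology

theorem mean_dist {g g' : ℕ → ℂ} {b b' : ℂ} (h : LocalMean g b) (h' : LocalMean g' b') {ε : ℝ} (hε : 0 ≤ ε)
    (hd : ∀ᶠ N : ℕ in atTop, ∑ n ∈ Icc 1 N, ‖g n - g' n‖ ≤ ε * N) : ‖b - b'‖ ≤ ε := by
  apply le_of_forall_pos_le_add
  intro η hη
  have h1 := h.add (h'.smul (-1))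
  obtain ⟨H, hH, h2⟩ := h1 (η / 4) (by positivity)
  obtain ⟨N1, hN1⟩ := exists_nat_ge (ε * H / (η / 4))
  have h3 := (tendsto_add_atTop_nat H).eventually hd
  obtain ⟨N, a1, a2, a3, a4⟩ := (h2.and (h3.and ((eventually_ge_atTop N1).and (eventually_ge_atTop 1)))).exists
  have hN : (0 : ℝ) < N := by exact_mod_cast a4
  have e0 : (fun n => g n + -1 * g' n) = fun n => g n - g' n := by
    funext n; ring
  rw [e0] at a1
  have e1 : b + -1 * b' = b - b' := by ring
  rw [e1] at a1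
  have h4 := sum_mean_sub (f := fun n => g n - g' n) H N hH
  have h5 : (N : ℝ) * ‖b - b'‖ ≤ ∑ n ∈ Icc 1 N, (‖mean (fun n => g n - g' n) H n‖ +
      ‖mean (fun n => g n - g' n) H n - (b - b')‖) := by
    have : ∀ n ∈ Icc 1 N, ‖b - b'‖ ≤ ‖mean (fun n => g n - g' n) H n‖ +
        ‖mean (fun n => g n - g' n) H n - (b - b')‖ := by
      intro n _
      calc ‖b - b'‖ = ‖mean (fun n => g n - g' n) H n - (mean (fun n => g n - g' n) H n - (b - b'))‖ := by
            congr 1; ring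
        _ ≤ _ := norm_sub_le _ _
    have h6 := sum_le_sum this
    rwa [sum_const, Nat.card_Icc, Nat.add_sub_cancel, nsmul_eq_mul] at h6
  rw [sum_add_distrib] at h5
  have h6 : ε * (H : ℝ) ≤ η / 4 * N := by
    have : ε * H / (η / 4) ≤ (N : ℝ) := hN1.trans (by exact_mod_cast a3)
    rw [div_le_iff₀ (by positivity)] at this
    linarith
  push_cast at a2
  have h7 : (N : ℝ) * ‖b - b'‖ ≤ N * (ε + η) := by nlinarith
  exact le_of_mul_le_mul_left h7 hN

/-- closure under limits in mean -/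
theorem exists_mean {f : ℕ → ℂ} (h : ∀ ε : ℝ, 0 < ε → ∃ (g : ℕ → ℂ) (b : ℂ), LocalMean g b ∧
    ∀ᶠ N : ℕ in atTop, ∑ n ∈ Icc 1 N, ‖f n - g n‖ ≤ ε * N) : ∃ c, LocalMean f c := by
  choose! g b h1 h2 using h
  have hd : ∀ ε δ : ℝ, 0 < ε → 0 < δ → ‖b ε - b δ‖ ≤ ε + δ := by
    intro ε δ hε hδ
    apply mean_dist (h1 ε hε) (h1 δ hδ) (by positivity)
    filter_upwards [h2 ε hε, h2 δ hδ] with N a1 a2
    have : ∀ n ∈ Icc 1 N, ‖g ε n - g δ n‖ ≤ ‖f n - g ε n‖ + ‖f n - g δ n‖ := by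
      intro n _
      calc ‖g ε n - g δ n‖ = ‖(f n - g δ n) - (f n - g ε n)‖ := by congr 1; ring
        _ ≤ ‖f n - g δ n‖ + ‖f n - g ε n‖ := norm_sub_le _ _
        _ = _ := add_comm _ _
    refine (sum_le_sum this).trans ?_
    rw [sum_add_distrib]
    linarith
  set u : ℕ → ℂ := fun k => b (1 / ((k : ℝ) + 1)) with hu
  have hup : ∀ k : ℕ, (0 : ℝ) < 1 / ((k : ℝ) + 1) := fun k => by positivity
  have h0 : Tendsto (fun k : ℕ => 1 / ((k : ℝ) + 1)) atTop (𝓝 0) := tendsto_one_div_add_atTop_nhds_zero_nat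
  have hc : CauchySeq u := by
    rw [Metric.cauchySeq_iff']
    intro ε hε
    obtain ⟨K, hK⟩ := (h0.eventually (gt_mem_nhds (show (0 : ℝ) < ε / 2 by positivity))).exists_forall_of_atTop
    refine ⟨K, fun n hn => ?_⟩
    rw [dist_eq_norm]
    have a1 := hd _ _ (hup n) (hup K)
    have a2 := hK K le_rfl
    have a3 := hK n hn
    linarith
  obtain ⟨c, hcl⟩ := cauchySeq_tendsto_of_complete hc
  refine ⟨c, LocalMean_lim fun ε hε => ⟨g ε, b ε, h1 ε hε, ?_, h2 ε hε⟩⟩
  have h3 : Tendsto (fun k => ‖b ε - u k‖) atTop (𝓝 ‖b ε - c‖) := (tendsto_const_nhds.sub hcl).norm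
  have h4 : Tendsto (fun k : ℕ => ε + 1 / ((k : ℝ) + 1)) atTop (𝓝 (ε + 0)) := h0.const_add ε
  rw [add_zero] at h4
  exact le_of_tendsto_of_tendsto' h3 h4 fun k => hd ε _ hε (hup k)

theorem card_mult (N b : ℕ) (hb : 1 ≤ b) : (#{n ∈ Icc 1 N | b ∣ n} : ℝ) ≤ N / b := by
  have h1 : #{n ∈ Icc 1 N | b ∣ n} = N / b := by
    have := Nat.Ioc_filter_dvd_card_eq_div N b
    rw [← this]
    congr 1
  rw [h1]
  exact Nat.cast_div_le

open Classical in
/-- integers without a divisor in a set with a convergent sum of reciprocals -/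
theorem free_mean (𝓑 : Set ℕ) (h1 : ∀ b ∈ 𝓑, 1 ≤ b) (hs : Summable fun b : 𝓑 => 1 / ((b : ℕ) : ℝ)) :
    ∃ c, LocalMean (fun n => if ∀ b ∈ 𝓑, ¬ b ∣ n then 1 else 0) c := by
  apply exists_mean
  intro ε hε
  -- tails
  have hs' : Summable fun b : ℕ => if b ∈ 𝓑 then 1 / (b : ℝ) else 0 := by
    have := (summable_subtype_iff_indicator (f := fun b : ℕ => 1 / (b : ℝ))).1 hs
    refine this.congr fun b => ?_
    by_cases hb : b ∈ 𝓑
    · rw [Set.indicator_of_mem hb, if_pos hb]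
    · rw [Set.indicator_of_notMem hb, if_neg hb]
  obtain ⟨K, hK⟩ : ∃ K : ℕ, ∀ L ≥ K, ∑ b ∈ Ico K L, (if b ∈ 𝓑 then 1 / (b : ℝ) else 0) ≤ ε := by
    have hcs := hs'.hasSum.tendsto_sum_nat.cauchySeq
    rw [Metric.cauchySeq_iff'] at hcs
    obtain ⟨K, hK⟩ := hcs ε hε
    refine ⟨K, fun L hL => ?_⟩
    have := hK L hL
    rw [dist_eq_norm, Real.norm_eq_abs, ← sum_range_add_sum_Ico _ hL] at this
    exact (le_abs_self _).trans (by rw [add_sub_cancel_left] at this; exact this.le)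
  refine ⟨fun n => if ∀ b ∈ 𝓑, b < K → ¬ b ∣ n then 1 else 0, _,
    (periodic_uniform (q := K.factorial) (Nat.factorial_pos K) ?_).localMean, ?_⟩
  · intro n
    congr 1
    apply propext
    refine forall₂_congr fun b hb => forall_congr' fun hbK => not_congr ?_
    have : b ∣ K.factorial := Nat.dvd_factorial (h1 b hb) hbK.le
    exact (Nat.dvd_add_iff_left this).symm
  · refine Eventually.of_forall fun N => ?_
    have h2 : ∀ n ∈ Icc 1 N, ‖(if ∀ b ∈ 𝓑, ¬ b ∣ n then (1 : ℂ) else 0) -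
        (if ∀ b ∈ 𝓑, b < K → ¬ b ∣ n then 1 else 0)‖ ≤
        ∑ b ∈ Ico K (N + 1 + K), (if b ∈ 𝓑 then (if b ∣ n then (1 : ℝ) else 0) else 0) := by
      intro n hn
      rw [mem_Icc] at hn
      have hnn : 0 ≤ ∑ b ∈ Ico K (N + 1 + K), (if b ∈ 𝓑 then (if b ∣ n then (1 : ℝ) else 0) else 0) := by
        apply sum_nonneg
        intro b _
        split_ifs <;> norm_num
      by_cases hA : ∀ b ∈ 𝓑, ¬ b ∣ n
      · rw [if_pos hA, if_pos fun b hb _ => hA b hb, sub_self, norm_zero]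
        exact hnn
      · by_cases hB : ∀ b ∈ 𝓑, b < K → ¬ b ∣ n
        · rw [if_neg hA, if_pos hB, zero_sub, norm_neg, norm_one]
          push Not at hA
          obtain ⟨b, hb, hbn⟩ := hA
          have hbK : K ≤ b := by
            by_contra hlt
            exact hB b hb (by omega) hbn
          have hbN : b ≤ N := (Nat.le_of_dvd (by omega) hbn).trans hn.2
          have h3 := single_le_sum (s := Ico K (N + 1 + K))
            (f := fun b => if b ∈ 𝓑 then (if b ∣ n then (1 : ℝ) else 0) else 0)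
            (fun b _ => by split_ifs <;> norm_num) (mem_Ico.2 ⟨hbK, by omega⟩ : b ∈ Ico K (N + 1 + K))
          simp only [if_pos hb, if_pos hbn] at h3
          exact h3
        · rw [if_neg hA, if_neg hB, sub_self, norm_zero]
          exact hnn
    refine (sum_le_sum h2).trans ?_
    rw [sum_comm]
    have h3 : ∀ b ∈ Ico K (N + 1 + K), ∑ n ∈ Icc 1 N, (if b ∈ 𝓑 then (if b ∣ n then (1 : ℝ) else 0) else 0) ≤
        N * (if b ∈ 𝓑 then 1 / (b : ℝ) else 0) := by
      intro b _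
      by_cases hb : b ∈ 𝓑
      · simp only [if_pos hb]
        rw [← sum_filter, sum_const, nsmul_eq_mul, mul_one]
        refine (card_mult N b (h1 b hb)).trans (le_of_eq ?_)
        ring
      · simp only [if_neg hb]
        simp
    refine (sum_le_sum h3).trans ?_
    rw [← mul_sum, mul_comm]
    exact mul_le_mul_of_nonneg_right (hK _ (by omega)) (by positivity)

end Pool.Agent.V8H28.LM
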