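import Pool.Agent.V8H28.LM.D
import Pool.Agent.H238R3.UL.Poly

/-! Polynomial phases. -/

set_option autoImplicit false

namespace Pool.Agent.V8H28.LM

open Finset Filter Topology Polynomial
open Pool.Agent.H332R2.Lit (e e_add norm_e)

theorem weyl_lead (d : ℕ) (α : ℝ) (hα : Irrational α) (κ : ℝ) (hκ : 0 < κ) : ∃ N₀ : ℕ, ∀ P : ℝ[X],
    P.natDegree ≤ d + 1 → P.coeff (d + 1) = α → ∀ N ≥ N₀, ‖∑ l ∈ range N, e (P.eval (l : ℝ))‖ ≤ κ * N := by
  obtain ⟨M, hM, h⟩ := Pool.Agent.H238R3.UL.weyl_unif d κ hκ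
  obtain ⟨m0, hm0, hmin⟩ := (Finset.Icc 1 M).exists_min_image
    (fun m : ℕ => |(m : ℝ) * α - round ((m : ℝ) * α)|) ⟨1, Finset.mem_Icc.2 ⟨le_rfl, hM⟩⟩
  rw [Finset.mem_Icc] at hm0
  have hpos : 0 < |(m0 : ℝ) * α - round ((m0 : ℝ) * α)| := by
    rw [abs_pos, sub_ne_zero]
    have h1 : Irrational ((m0 : ℝ) * α) := by
      have := hα.natCast_mul (m := m0) (by omega)
      exact this
    exact h1.ne_int _
  obtain ⟨N₀, hN₀⟩ := h _ hpos
  refine ⟨N₀, fun P hP hc N hN => hN₀ P hP (fun m hm => ?_) N hN⟩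
  rw [hc]
  exact hmin m hm

theorem e_int (z : ℤ) : e (z : ℝ) = 1 := by
  unfold e
  rw [show (2 * (Real.pi : ℂ) * ((z : ℝ) : ℂ) * Complex.I) = (z : ℂ) * (2 * Real.pi * Complex.I) by
    push_cast; ring]
  exact Complex.exp_int_mul_two_pi_mul_I z

theorem common_den (a : ℕ → ℝ) (s : Finset ℕ) (h : ∀ i ∈ s, ¬ Irrational (a i)) :
    ∃ Q : ℕ, 1 ≤ Q ∧ ∀ i ∈ s, ∃ z : ℤ, (Q : ℝ) * a i = z := by
  classical
  induction s using Finset.induction_on with
  | empty => exact ⟨1, le_rfl, fun i hi => absurd hi (Finset.notMem_empty i)⟩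
  | insert j s hj ih =>
    obtain ⟨Q, hQ, h1⟩ := ih fun i hi => h i (Finset.mem_insert_of_mem hi)
    have h2 := h j (Finset.mem_insert_self j s)
    unfold Irrational at h2
    push Not at h2
    obtain ⟨r, hr⟩ := h2
    refine ⟨Q * r.den, Nat.mul_pos hQ r.pos, fun i hi => ?_⟩
    rcases Finset.mem_insert.1 hi with rfl | hi
    · refine ⟨Q * r.num, ?_⟩
      rw [← hr]
      push_cast
      have : (r : ℝ) * (r.den : ℝ) = r.num := by exact_mod_cast Rat.mul_den_eq_num r
      rw [mul_assoc, mul_comm (r.den : ℝ), this]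
    · obtain ⟨z, hz⟩ := h1 i hi
      refine ⟨z * r.den, ?_⟩
      push_cast
      rw [← hz]
      ring

theorem poly_uniform (P : ℝ[X]) (i : ℕ) (hi : 1 ≤ i) (hirr : Irrational (P.coeff i)) :
    UniformMean (fun n => e (P.eval (n : ℝ))) 0 := by
  classical
  -- the largest irrational coefficient
  have hiN : i ≤ P.natDegree := by
    by_contra hlt
    rw [coeff_eq_zero_of_natDegree_lt (by omega)] at hirr
    exact not_irrational_zero hirr
  set S := (Finset.range (P.natDegree + 1)).filter fun j => Irrational (P.coeff j) with hS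
  have hiS : i ∈ S := by rw [hS, Finset.mem_filter, Finset.mem_range]; exact ⟨by omega, hirr⟩
  set D := S.max' ⟨i, hiS⟩ with hD
  have hDS : D ∈ S := S.max'_mem _
  have hiD : i ≤ D := S.le_max' i hiS
  have hDirr : Irrational (P.coeff D) := (Finset.mem_filter.1 hDS).2
  have hDN : D ≤ P.natDegree := by
    have := Finset.mem_range.1 (Finset.mem_filter.1 hDS).1
    omega
  have hrat : ∀ j ∈ Finset.Ico (D + 1) (P.natDegree + 1), ¬ Irrational (P.coeff j) := by
    intro j hj hcon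
    rw [Finset.mem_Ico] at hj
    have := S.le_max' j (by rw [hS, Finset.mem_filter, Finset.mem_range]; exact ⟨by omega, hcon⟩)
    omega
  obtain ⟨Q, hQ, hz⟩ := common_den P.coeff _ hrat
  obtain ⟨d, hd⟩ := Nat.exists_eq_add_of_le (hi.trans hiD)
  have hQr : (0 : ℝ) < Q := by exact_mod_cast hQ
  have hα : Irrational (P.coeff D * (Q : ℝ) ^ D) := by
    have := hDirr.mul_natCast (m := Q ^ D) (pow_ne_zero _ (by omega))
    push_cast at this
    exact this
  set P1 : ℝ[X] := ∑ j ∈ Finset.range (D + 1), C (P.coeff j) * X ^ j with hP1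
  have hc1 : ∀ k, P1.coeff k = if k < D + 1 then P.coeff k else 0 := by
    intro k
    rw [hP1, finset_sum_coeff]
    simp only [coeff_C_mul, coeff_X_pow, mul_ite, mul_one, mul_zero]
    rw [Finset.sum_ite_eq]
    simp only [Finset.mem_range]
  have hPD : P.coeff D ≠ 0 := hDirr.ne_zero
  have hdeg1 : P1.natDegree = D := by
    apply le_antisymm
    · rw [natDegree_le_iff_coeff_eq_zero]
      intro k hk
      rw [hc1, if_neg (by omega)]
    · apply le_natDegree_of_ne_zero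
      rw [hc1, if_pos (by omega)]
      exact hPD
  have heval1 : ∀ x : ℝ, P.eval x = P1.eval x +
      ∑ j ∈ Finset.Ico (D + 1) (P.natDegree + 1), P.coeff j * x ^ j := by
    intro x
    rw [eval_eq_sum_range, ← Finset.sum_range_add_sum_Ico _ (by omega : D + 1 ≤ P.natDegree + 1), hP1,
      eval_finset_sum]
    congr 1
    refine Finset.sum_congr rfl fun j _ => ?_
    simp
  have hint : ∀ y t : ℕ, ∃ z : ℤ, ∑ j ∈ Finset.Ico (D + 1) (P.natDegree + 1), P.coeff j *
      ((y : ℝ) + Q * t) ^ j = (∑ j ∈ Finset.Ico (D + 1) (P.natDegree + 1), P.coeff j * (y : ℝ) ^ j) + z := by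
    intro y t
    have h1 : ∀ j ∈ Finset.Ico (D + 1) (P.natDegree + 1), ∃ z : ℤ,
        P.coeff j * ((y : ℝ) + Q * t) ^ j - P.coeff j * (y : ℝ) ^ j = z := by
      intro j hj
      obtain ⟨z, hz⟩ := hz j hj
      obtain ⟨w, hw⟩ : (((y : ℤ) + Q * t) - y) ∣ ((y : ℤ) + Q * t) ^ j - (y : ℤ) ^ j :=
        sub_dvd_pow_sub_pow _ _ _
      have hw' : ((y : ℝ) + Q * t) ^ j - (y : ℝ) ^ j = (((y : ℝ) + Q * t) - y) * w := by exact_mod_cast hw
      refine ⟨z * (t * w), ?_⟩
      rw [← mul_sub, hw']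
      push_cast
      rw [← hz]
      ring
    choose! zf hzf using h1
    refine ⟨∑ j ∈ Finset.Ico (D + 1) (P.natDegree + 1), zf j, ?_⟩
    rw [← sub_eq_iff_eq_add', ← Finset.sum_sub_distrib]
    push_cast
    exact Finset.sum_congr rfl hzf
  intro ε hε
  obtain ⟨N₀, hN₀⟩ := weyl_lead d _ hα ε hε
  set M := N₀ + 1 with hM
  refine ⟨M * Q, Nat.mul_pos (by omega) hQ, fun n => ?_⟩
  have hMr : (0 : ℝ) < M := by exact_mod_cast (by omega : 0 < M)
  rw [sub_zero]
  unfold mean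
  have hMQ : (0 : ℝ) < ((M * Q : ℕ) : ℝ) := by push_cast; positivity
  rw [norm_div, Complex.norm_natCast, div_le_iff₀ hMQ, sum_Icc_range (f := fun n => e (P.eval (n : ℝ))),
    sum_blocks, Finset.sum_comm]
  have key : ∀ r ∈ Finset.range Q, ‖∑ t ∈ Finset.range M, e (P.eval (((n + 1 + (t * Q + r) : ℕ)) : ℝ))‖ ≤
      ε * M := by
    intro r _
    set y := n + 1 + r with hy
    set R : ℝ[X] := P1.comp (C (Q : ℝ) * X + C (y : ℝ)) with hR
    have hq1 : (C (Q : ℝ) * X + C (y : ℝ)).natDegree = 1 := natDegree_linear hQr.ne'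
    have hq2 : (C (Q : ℝ) * X + C (y : ℝ)).leadingCoeff = (Q : ℝ) := leadingCoeff_linear hQr.ne'
    have hRd : R.natDegree ≤ d + 1 := by
      rw [hR, natDegree_comp, hdeg1, hq1, mul_one, hd, add_comm]
    have hRc : R.coeff (d + 1) = P.coeff D * (Q : ℝ) ^ D := by
      have h1 := coeff_comp_degree_mul_degree (p := P1) (q := C (Q : ℝ) * X + C (y : ℝ)) (by rw [hq1]; norm_num)
      rw [hq1, hdeg1, mul_one, hq2] at h1
      have h2 : P1.leadingCoeff = P.coeff D := by
        rw [leadingCoeff, hdeg1, hc1, if_pos (by omega)]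
      rw [h2] at h1
      rw [hR, ← h1]
      congr 1
      omega
    have h3 := hN₀ R hRd hRc M (by omega)
    have h4 : ∀ t ∈ Finset.range M, e (P.eval (((n + 1 + (t * Q + r) : ℕ)) : ℝ)) =
        e (∑ j ∈ Finset.Ico (D + 1) (P.natDegree + 1), P.coeff j * (y : ℝ) ^ j) * e (R.eval (t : ℝ)) := by
      intro t _
      have e1 : (((n + 1 + (t * Q + r) : ℕ)) : ℝ) = (y : ℝ) + Q * t := by rw [hy]; push_cast; ring
      obtain ⟨z, hz⟩ := hint y t
      rw [e1, heval1, hz, ← e_add]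
      have e2 : R.eval (t : ℝ) = P1.eval ((y : ℝ) + Q * t) := by
        rw [hR, eval_comp]
        simp
        congr 1
        ring
      rw [e2, ← add_assoc, e_add _ (z : ℝ), e_int, mul_one, add_comm]
    rw [Finset.sum_congr rfl h4, ← Finset.mul_sum, norm_mul, norm_e, one_mul]
    exact h3
  refine (norm_sum_le _ _).trans ((Finset.sum_le_sum key).trans ?_)
  rw [Finset.sum_const, Finset.card_range, nsmul_eq_mul]
  push_cast
  linarith

end Pool.Agent.V8H28.LM
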