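import Pool.Agent.V8H28.LM.A
import Pool.Agent.V8H28.LM.P

/-! Functions of the tail of the trajectory and sequences with local means. -/

set_option autoImplicit false

namespace Pool.Agent.V8H28.LM

open Finset Filter Topology
open Pool.Agent.V11201.SH (Rate lam lam_pos exc)
open Pool.Agent.H499R2.CO (Cn HD HD_congr HD_not)

/-- functions of the tail of the trajectory, bounded by `1` -/
def Tail (G : ℕ → ℂ) : Prop := (∀ n, ‖G n‖ ≤ 1) ∧ ∀ m n, 1 ≤ m → 1 ≤ n → Merge m n → G m = G n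

theorem Tail.inv {G : ℕ → ℂ} (hG : Tail G) (n j : ℕ) (hn : 1 ≤ n) (_ : 1 ≤ j)
    (h : ¬ ¬ Merge (n + j) n) : G (n + j) = G n := hG.2 _ _ (by omega) hn (not_not.1 h)

theorem t1 : ∃ A : ℝ, 0 < A ∧ ∀ N : ℕ, 16 ≤ N → ∀ H : ℕ, 1 ≤ H → ∀ f G : ℕ → ℂ, (∀ n, ‖f n‖ ≤ 1) → Tail G →
    ‖∑ n ∈ Icc 1 N, f n * G n - ∑ n ∈ Icc 1 N, mean f H n * G n‖ ≤
      A * √ ((1 + Real.log (1 + H)) * (Real.log (Real.log N) / Real.log N)) * N + 2 * H := by
  obtain ⟨C, hC, h⟩ := merge_rate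
  refine ⟨2 * C, by positivity, fun N hN H hH f G hf hG => ?_⟩
  have h1 := transfer hf hG.1 (R := fun n j => ¬ Merge (n + j) n) hG.inv (N := N) hH
    (κ := C * √ ((1 + Real.log (1 + H)) * lam N)) (fun j hj1 hj2 => by
      refine (h N hN j hj1).trans ?_
      have hl := lam_pos hN
      have hj : Real.log (1 + (j : ℝ)) ≤ Real.log (1 + (H : ℝ)) := by
        apply Real.log_le_log (by positivity)
        have : (j : ℝ) ≤ H := by exact_mod_cast hj2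
        linarith
      have h2 : √ ((1 + Real.log (1 + (j : ℝ))) * lam N) ≤ √ ((1 + Real.log (1 + (H : ℝ))) * lam N) := by
        apply Real.sqrt_le_sqrt
        exact mul_le_mul_of_nonneg_right (by linarith) hl.le
      exact mul_le_mul_of_nonneg_right (mul_le_mul_of_nonneg_left h2 hC.le) (by positivity))
  have e : 2 * (C * √ ((1 + Real.log (1 + H)) * lam N)) * N + 2 * H =
      2 * C * √ ((1 + Real.log (1 + H)) * (Real.log (Real.log N) / Real.log N)) * N + 2 * H := by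
    unfold lam; ring
  rw [← e]
  exact h1

theorem t2 {ε : ℝ} (hε : 0 < ε) : ∃ θ : ℝ, 0 < θ ∧ ∃ N0 : ℕ, ∀ N ≥ N0, ∀ H : ℕ, 1 ≤ H →
    (H : ℝ) ≤ (N : ℝ) ^ θ → ∀ f G : ℕ → ℂ, (∀ n, ‖f n‖ ≤ 1) → Tail G →
    ‖∑ n ∈ Icc 1 N, f n * G n - ∑ n ∈ Icc 1 N, mean f H n * G n‖ ≤ ε * N := by
  obtain ⟨θ, hθ, N0, h⟩ := merge_window (ε := ε / 4) (by positivity)
  obtain ⟨N1, hN1⟩ := exists_nat_ge ((4 / ε) ^ 2)
  refine ⟨min θ (1 / 2), lt_min hθ (by norm_num), max N0 (N1 + 1), fun N hN H hH1 hH f G hf hG => ?_⟩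
  have hN0 : N0 ≤ N := (le_max_left _ _).trans hN
  have hNN1 : N1 + 1 ≤ N := (le_max_right _ _).trans hN
  have hN1' : (1 : ℝ) ≤ N := by exact_mod_cast (by omega : 1 ≤ N)
  have hHθ : (H : ℝ) ≤ (N : ℝ) ^ θ :=
    hH.trans (Real.rpow_le_rpow_of_exponent_le hN1' (min_le_left _ _))
  have hHh : (H : ℝ) ≤ √ (N : ℝ) := by
    rw [Real.sqrt_eq_rpow]
    exact hH.trans (Real.rpow_le_rpow_of_exponent_le hN1' (min_le_right _ _))
  have h1 := transfer hf hG.1 (R := fun n j => ¬ Merge (n + j) n) hG.inv (N := N) hH1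
    (κ := ε / 4) (fun j hj1 hj2 => h N hN0 j (by
      have : (j : ℝ) ≤ H := by exact_mod_cast hj2
      linarith))
  have h2 : 2 * (H : ℝ) ≤ ε / 2 * N := by
    have a2 : 4 / ε ≤ √ (N : ℝ) := by
      rw [Real.le_sqrt (by positivity) (by positivity)]
      refine hN1.trans ?_
      exact_mod_cast (by omega : N1 ≤ N)
    have a3 : √ (N : ℝ) * √ (N : ℝ) = N := Real.mul_self_sqrt (by linarith)
    have a4 : 0 ≤ √ (N : ℝ) := Real.sqrt_nonneg _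
    have a5 : 4 ≤ ε * √ (N : ℝ) := by
      rw [div_le_iff₀ hε] at a2
      linarith
    have a6 : 4 * √ (N : ℝ) ≤ ε * N := by
      calc 4 * √ (N : ℝ) ≤ (ε * √ (N : ℝ)) * √ (N : ℝ) := mul_le_mul_of_nonneg_right a5 a4
        _ = ε * N := by rw [mul_assoc, a3]
    linarith
  linarith

theorem bad_zero (j : ℕ) {ε : ℝ} (hε : 0 < ε) : ∀ᶠ N : ℕ in atTop,
    ({n : ℕ | 1 ≤ n ∧ n ≤ N ∧ ¬ Merge (n + j) n}.ncard : ℝ) ≤ ε * N := by
  obtain ⟨θ, hθ, N0, h⟩ := merge_window hε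
  have h1 : Tendsto (fun N : ℕ => (N : ℝ) ^ θ) atTop atTop :=
    (tendsto_rpow_atTop hθ).comp tendsto_natCast_atTop_atTop
  filter_upwards [eventually_ge_atTop N0, h1.eventually (eventually_ge_atTop (j : ℝ))] with N a1 a2
  exact h N a1 j a2

theorem t3 {f : ℕ → ℂ} {c : ℂ} (hf : ∀ n, ‖f n‖ ≤ 1) (h : LocalMean f c) {ε : ℝ} (hε : 0 < ε) :
    ∀ᶠ N : ℕ in atTop, ∀ G : ℕ → ℂ, Tail G →
      ‖∑ n ∈ Icc 1 N, f n * G n - c * ∑ n ∈ Icc 1 N, G n‖ ≤ ε * N := by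
  have h1 := indep hf h (R := fun n j => ¬ Merge (n + j) n) (fun j _ ε hε => bad_zero j hε) ε hε
  filter_upwards [h1] with N a1 G hG
  exact a1 G hG.1 hG.inv

open Classical in
/-- the indicator function of a set of integers -/
noncomputable def ind (P : ℕ → Prop) (n : ℕ) : ℂ := if P n then 1 else 0

theorem norm_ind (P : ℕ → Prop) (n : ℕ) : ‖ind P n‖ ≤ 1 := by
  unfold ind
  split_ifs <;> simp

theorem ind_mul (P Q : ℕ → Prop) (n : ℕ) : ind P n * ind Q n = ind (fun n => P n ∧ Q n) n := by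
  unfold ind
  by_cases hP : P n <;> by_cases hQ : Q n <;> simp [hP, hQ]

theorem sum_ind (P : ℕ → Prop) (N : ℕ) :
    ∑ n ∈ Icc 1 N, ind P n = (({n : ℕ | 1 ≤ n ∧ n ≤ N ∧ P n}.ncard : ℝ) : ℂ) := by
  classical
  rw [ncard_eq]
  unfold ind
  rw [← sum_filter, sum_const, nsmul_eq_mul, mul_one]
  push_cast
  rfl

/-- the integers which do not reach `1` -/
def Dv (n : ℕ) : Prop := ¬ ∃ k : ℕ, Cn^[k] n = 1

theorem Merge.symm {m n : ℕ} (h : Merge m n) : Merge n m := by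
  obtain ⟨k, h1, h2, h3⟩ := h
  exact ⟨k, h1.symm, h2.symm, fun i hi => (h3 i hi).symm⟩

/-- merging preserves the first time at which `1` is reached -/
theorem Merge.hit {m n : ℕ} (h : Merge m n) {t : ℕ} (ht : Cn^[t] n = 1) :
    Cn^[t] m = 1 ∧ odds t m = odds t n := by
  obtain ⟨k, h1, h2, h3⟩ := h
  have hkt : k ≤ t := by
    by_contra hlt
    exact (h3 t (by omega)).2 ht
  obtain ⟨s, rfl⟩ := Nat.exists_eq_add_of_le hkt
  rw [Nat.add_comm, Function.iterate_add_apply] at ht ⊢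
  refine ⟨by rw [h1]; exact ht, ?_⟩
  rw [Nat.add_comm, odds_add, odds_add, h1, h2]

theorem Tail_Dv : Tail (ind Dv) := by
  refine ⟨norm_ind Dv, fun m n _ _ h => ?_⟩
  have : Dv m ↔ Dv n := by
    unfold Dv
    refine not_congr ⟨fun ⟨k, hk⟩ => ⟨k, (h.symm.hit hk).1⟩, fun ⟨k, hk⟩ => ⟨k, (h.hit hk).1⟩⟩
  unfold ind
  by_cases hm : Dv m
  · rw [if_pos hm, if_pos (this.1 hm)]
  · rw [if_neg hm, if_neg fun h' => hm (this.2 h')]

/-- the exceptions -/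
def Ex (n : ℕ) : Prop := ¬ ∃ k : ℕ, k ≤ n ∧ Cn^[k] n = 1

theorem dens : ∃ δ : ℝ, 0 ≤ δ ∧ δ < 1 ∧ (δ = 0 ↔ ∀ n : ℕ, 1 ≤ n → ¬ Dv n) ∧ HD Ex δ ∧ HD Dv δ ∧
    HD (fun n => ¬ (Ex n ∧ ¬ Dv n)) 1 := by
  obtain ⟨δ, h0, h1, h2, h3, h4⟩ := exc
  have h5 : HD (fun n => ¬ (Ex n ∧ ¬ Dv n)) 1 := by
    have h6 := HD_not h4
    rw [sub_zero] at h6
    refine HD_congr h6 h6 fun n _ hn => ⟨fun _ => ?_, fun _ => hn⟩
    rintro ⟨a1, a2⟩
    exact hn ⟨not_not.1 a2, a1⟩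
  refine ⟨δ, h0, h1, ?_, h3, ?_, h5⟩
  · rw [h2]
    exact forall₂_congr fun n _ => not_not.symm
  · refine HD_congr h5 h3 fun n _ hn => ⟨fun h => ?_, fun h => ?_⟩
    · by_contra hcon
      exact hn ⟨h, hcon⟩
    · rintro ⟨k, _, hk⟩
      exact h ⟨k, hk⟩

/-- relative densities -/
theorem relative {E : ℕ → Prop} {c δ : ℝ} (hE : LocalMean (ind E) c) (hD : HD Dv δ) :
    HD (fun n => E n ∧ Dv n) (c * δ) := by
  unfold HD
  rw [Metric.tendsto_atTop]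
  have h1 : Tendsto (fun N : ℕ => c * (({n : ℕ | 1 ≤ n ∧ n ≤ N ∧ Dv n}.ncard : ℝ) / N)) atTop
      (𝓝 (c * δ)) := hD.const_mul c
  intro ε hε
  obtain ⟨N1, hN1⟩ := Metric.tendsto_atTop.1 h1 (ε / 2) (by positivity)
  obtain ⟨N2, hN2⟩ := eventually_atTop.1 (t3 (norm_ind E) hE (ε := ε / 4) (by positivity))
  refine ⟨max (max N1 N2) 1, fun N hN => ?_⟩
  have a1 := hN1 N ((le_max_left _ _).trans ((le_max_left _ _).trans hN))
  have a2 := hN2 N ((le_max_right _ _).trans ((le_max_left _ _).trans hN)) _ Tail_Dv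
  have hN' : (0 : ℝ) < N := by
    have : 1 ≤ N := (le_max_right _ _).trans hN
    exact_mod_cast this
  simp only [ind_mul] at a2
  rw [sum_ind, sum_ind, ← Complex.ofReal_mul, ← Complex.ofReal_sub, Complex.norm_real,
    Real.norm_eq_abs] at a2
  rw [Real.dist_eq] at a1 ⊢
  have a3 : |({n : ℕ | 1 ≤ n ∧ n ≤ N ∧ (E n ∧ Dv n)}.ncard : ℝ) / N -
      c * (({n : ℕ | 1 ≤ n ∧ n ≤ N ∧ Dv n}.ncard : ℝ) / N)| ≤ ε / 4 := by
    rw [← mul_div_assoc, ← sub_div, abs_div, abs_of_pos hN', div_le_iff₀ hN']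
    exact a2
  calc |({n : ℕ | 1 ≤ n ∧ n ≤ N ∧ (E n ∧ Dv n)}.ncard : ℝ) / N - c * δ|
      = |(({n : ℕ | 1 ≤ n ∧ n ≤ N ∧ (E n ∧ Dv n)}.ncard : ℝ) / N -
          c * (({n : ℕ | 1 ≤ n ∧ n ≤ N ∧ Dv n}.ncard : ℝ) / N)) +
          (c * (({n : ℕ | 1 ≤ n ∧ n ≤ N ∧ Dv n}.ncard : ℝ) / N) - c * δ)| := by congr 1; ring
    _ ≤ ε / 4 + |c * (({n : ℕ | 1 ≤ n ∧ n ≤ N ∧ Dv n}.ncard : ℝ) / N) - c * δ| :=
        (abs_add_le _ _).trans (by linarith)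
    _ < ε := by linarith

/-- sets which meet most intervals of a fixed length -/
theorem sufficient {E : ℕ → Prop} (hE : ∀ ε : ℝ, 0 < ε → ∃ H : ℕ, ∀ᶠ N : ℕ in atTop,
      ({n : ℕ | 1 ≤ n ∧ n ≤ N ∧ ∀ j ∈ Icc 1 H, ¬ E (n + j)}.ncard : ℝ) ≤ ε * N)
    (hD : ∀ ε : ℝ, 0 < ε → ∃ᶠ N : ℕ in atTop,
      ({n : ℕ | 1 ≤ n ∧ n ≤ N ∧ (E n ∧ Dv n)}.ncard : ℝ) ≤ ε * N) {δ : ℝ} (h0 : 0 ≤ δ) (hδ : HD Dv δ) :
    δ = 0 := by
  classical
  by_contra hne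
  have hpos : 0 < δ := lt_of_le_of_ne h0 (Ne.symm hne)
  obtain ⟨H0, hH0⟩ := hE (δ / 4) (by positivity)
  -- we may take `H ≥ 1`
  obtain ⟨H, hH1, hH⟩ : ∃ H : ℕ, 1 ≤ H ∧ ∀ᶠ N : ℕ in atTop,
      ({n : ℕ | 1 ≤ n ∧ n ≤ N ∧ ∀ j ∈ Icc 1 H, ¬ E (n + j)}.ncard : ℝ) ≤ δ / 4 * N := by
    refine ⟨H0 + 1, by omega, hH0.mono fun N hN => le_trans ?_ hN⟩
    have : {n : ℕ | 1 ≤ n ∧ n ≤ N ∧ ∀ j ∈ Icc 1 (H0 + 1), ¬ E (n + j)} ⊆
        {n : ℕ | 1 ≤ n ∧ n ≤ N ∧ ∀ j ∈ Icc 1 H0, ¬ E (n + j)} := by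
      rintro n ⟨b1, b2, b3⟩
      refine ⟨b1, b2, fun j hj => b3 j ?_⟩
      rw [mem_Icc] at hj ⊢
      omega
    exact_mod_cast Set.ncard_le_ncard this (fin_le _ N)
  have hHr : (0 : ℝ) < H := by exact_mod_cast hH1
  have hbad : ∀ᶠ N : ℕ in atTop, ∀ j ∈ Icc 1 H,
      ({n : ℕ | 1 ≤ n ∧ n ≤ N ∧ ¬ Merge (n + j) n}.ncard : ℝ) ≤ δ / (16 * H) * N := by
    rw [eventually_all_finset]
    intro j _
    exact bad_zero j (by positivity)
  have hden : ∀ᶠ N : ℕ in atTop, 3 * δ / 4 < ({n : ℕ | 1 ≤ n ∧ n ≤ N ∧ Dv n}.ncard : ℝ) / N :=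
    hδ.eventually (lt_mem_nhds (by linarith))
  obtain ⟨N1, hN1⟩ := exists_nat_ge (2 * H / (δ / (16 * H)))
  obtain ⟨N, a1, a2, a3, a4, a5, a6⟩ := ((hD (δ / (16 * H)) (by positivity)).and_eventually
    (hH.and (hbad.and (hden.and ((eventually_ge_atTop N1).and (eventually_ge_atTop 1)))))).exists
  have hN : (0 : ℝ) < N := by exact_mod_cast a6
  have h1 := transfer (norm_ind E) (norm_ind Dv) (R := fun n j => ¬ Merge (n + j) n) Tail_Dv.inv (N := N) hH1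
    (κ := δ / (16 * H)) (fun j hj1 hj2 => a3 j (mem_Icc.2 ⟨hj1, hj2⟩))
  -- the mean of the indicator function
  have hmean : ∀ n, mean (ind E) H n = (((#{j ∈ Icc 1 H | E (n + j)} : ℝ) / H : ℝ) : ℂ) := by
    intro n
    unfold mean ind
    rw [← sum_filter, sum_const, nsmul_eq_mul, mul_one]
    push_cast
    rfl
  have hreal : ∑ n ∈ Icc 1 N, mean (ind E) H n * ind Dv n =
      ((∑ n ∈ Icc 1 N, (#{j ∈ Icc 1 H | E (n + j)} : ℝ) / H * (if Dv n then 1 else 0) : ℝ) : ℂ) := by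
    rw [Complex.ofReal_sum]
    refine sum_congr rfl fun n _ => ?_
    rw [hmean]
    unfold ind
    by_cases hd : Dv n <;> simp [hd]
  have hlow : (({n : ℕ | 1 ≤ n ∧ n ≤ N ∧ Dv n}.ncard : ℝ) - δ / 4 * N) / H ≤
      ∑ n ∈ Icc 1 N, (#{j ∈ Icc 1 H | E (n + j)} : ℝ) / H * (if Dv n then 1 else 0) := by
    have b1 : ∀ n ∈ Icc 1 N, ((if Dv n then (1 : ℝ) else 0) -
        (if ∀ j ∈ Icc 1 H, ¬ E (n + j) then 1 else 0)) / H ≤
        (#{j ∈ Icc 1 H | E (n + j)} : ℝ) / H * (if Dv n then 1 else 0) := by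
      intro n _
      by_cases hd : Dv n
      · rw [if_pos hd, mul_one]
        apply div_le_div_of_nonneg_right _ hHr.le
        split_ifs with he
        · simp
        · push Not at he
          obtain ⟨j, hj, hEj⟩ := he
          have : 1 ≤ #{j ∈ Icc 1 H | E (n + j)} := card_pos.2 ⟨j, mem_filter.2 ⟨hj, hEj⟩⟩
          rw [sub_zero]
          exact_mod_cast this
      · rw [if_neg hd, mul_zero, zero_sub]
        apply div_nonpos_of_nonpos_of_nonneg _ hHr.le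
        split_ifs <;> norm_num
    have b2 := sum_le_sum b1
    rw [← sum_div, sum_sub_distrib, ← sum_filter, ← sum_filter, sum_const, sum_const, nsmul_eq_mul,
      nsmul_eq_mul, mul_one, mul_one] at b2
    rw [ncard_eq] at a2
    rw [ncard_eq]
    refine le_trans ?_ b2
    apply div_le_div_of_nonneg_right _ hHr.le
    linarith
  simp only [ind_mul] at h1
  rw [sum_ind, hreal, ← Complex.ofReal_sub, Complex.norm_real, Real.norm_eq_abs] at h1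
  have h2 := (abs_le.1 h1).1
  have h3 : 3 * δ / 4 * N < ({n : ℕ | 1 ≤ n ∧ n ≤ N ∧ Dv n}.ncard : ℝ) := by
    rwa [lt_div_iff₀ hN] at a4
  have h4 : δ / 2 * N / H ≤ (({n : ℕ | 1 ≤ n ∧ n ≤ N ∧ Dv n}.ncard : ℝ) - δ / 4 * N) / H := by
    apply div_le_div_of_nonneg_right _ hHr.le
    linarith
  have h5 : 2 * (H : ℝ) ≤ δ / (16 * H) * N := by
    have : 2 * H / (δ / (16 * H)) ≤ (N : ℝ) := hN1.trans (by exact_mod_cast a5)
    rw [div_le_iff₀ (by positivity)] at this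
    linarith
  have e1 : δ / 2 * N / H = 8 * (δ / (16 * H) * N) := by field_simp; ring
  rw [e1] at h4
  have h6 : 0 < δ / (16 * H) * N := by positivity
  have h7 : 2 * (δ / (16 * H)) * N = 2 * (δ / (16 * H) * N) := by ring
  rw [h7] at h2
  linarith

end Pool.Agent.V8H28.LM
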